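import Pool.Agent.BEH.Stmts

/-!
# Squad BEH, row GEO: the domain with holes is open and connected
-/

set_option autoImplicit false

namespace Pool.Agent.BEH.H40

open Set Filter Topology MeasureTheory
open Pool.Agent.BE01 Pool.Agent.BEL Pool.Agent.BEH

/-- the open shell -/
def shell {d : ℕ} (x : En d) (r R : ℝ) : Set (En d) :=
  {y | r < dist y x ∧ dist y x < R}

theorem one_lt_rank {d : ℕ} (hd : 2 ≤ d) : 1 < Module.rank ℝ (En d) := by
  have h1 : Module.finrank ℝ (En d) = d := by
    unfold En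
    exact finrank_euclideanSpace_fin
  have h2 : Module.rank ℝ (En d) = (d : Cardinal) := by
    rw [← Module.finrank_eq_rank, h1]
  rw [h2]
  have : (1 : ℕ) < d := by omega
  exact_mod_cast this

theorem shell_pre {d : ℕ} (hd : 2 ≤ d) (x : En d) {r R : ℝ} (hr : 0 < r) :
    IsPreconnected (shell x r R) := by
  have h1 : IsPreconnected (Metric.sphere (0 : En d) 1) :=
    isPreconnected_sphere (one_lt_rank hd) 0 1
  have h2 : IsPreconnected (Metric.sphere (0 : En d) 1 ×ˢ Ioo r R) :=
    h1.prod isPreconnected_Ioo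
  have hc : Continuous (fun p : En d × ℝ => x + p.2 • p.1) := by fun_prop
  have h3 := h2.image (fun p : En d × ℝ => x + p.2 • p.1) hc.continuousOn
  have h4 : shell x r R = (fun p : En d × ℝ => x + p.2 • p.1) ''
      (Metric.sphere (0 : En d) 1 ×ˢ Ioo r R) := by
    ext y
    constructor
    · rintro ⟨hy1, hy2⟩
      have hpos : 0 < dist y x := hr.trans hy1
      refine ⟨((dist y x)⁻¹ • (y - x), dist y x), ⟨?_, hy1, hy2⟩, ?_⟩
      · rw [mem_sphere_zero_iff_norm]
        show ‖(dist y x)⁻¹ • (y - x)‖ = 1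
        rw [norm_smul, norm_inv, Real.norm_eq_abs, abs_of_pos hpos, ← dist_eq_norm]
        exact inv_mul_cancel₀ hpos.ne'
      · show x + dist y x • ((dist y x)⁻¹ • (y - x)) = y
        rw [smul_smul, mul_inv_cancel₀ hpos.ne', one_smul]
        abel
    · rintro ⟨⟨s, ρ⟩, ⟨hs, hρ1, hρ2⟩, rfl⟩
      rw [mem_sphere_zero_iff_norm] at hs
      have hρ : dist (x + ρ • s) x = ρ := by
        rw [dist_eq_norm, add_sub_cancel_left, norm_smul, Real.norm_eq_abs,
          abs_of_pos (hr.trans hρ1)]
        have : ‖s‖ = 1 := hs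
        rw [this, mul_one]
      show r < dist (x + ρ • s) x ∧ dist (x + ρ • s) x < R
      rw [hρ]
      exact ⟨hρ1, hρ2⟩
  rw [h4]
  exact h3

theorem shell_ne {d : ℕ} (hd : 2 ≤ d) (x : En d) {r R : ℝ} (hr : 0 < r) (hR : r < R) :
    (shell x r R).Nonempty := by
  have : Nontrivial (En d) := by
    have h1 : Module.finrank ℝ (En d) = d := by
      unfold En
      exact finrank_euclideanSpace_fin
    exact Module.nontrivial_of_finrank_pos (R := ℝ) (by omega)
  obtain ⟨s, hs⟩ := exists_norm_eq (En d) (c := (r + R) / 2) (by linarith)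
  refine ⟨x + s, ?_⟩
  show r < dist (x + s) x ∧ dist (x + s) x < R
  rw [dist_eq_norm, add_sub_cancel_left, hs]
  constructor <;> linarith

/-- row GEO -/
theorem geo : GeoStmt := by
  intro d Ω J x R r hd hO hC hr hsub hdis
  have hclosed : IsClosed (⋃ j, Metric.closedBall (x j) (r j)) :=
    isClosed_iUnion_of_finite fun j => Metric.isClosed_closedBall
  have hopen : IsOpen (Hl Ω x r) := hO.sdiff hclosed
  have hmem : ∀ y, y ∈ Hl Ω x r ↔ y ∈ Ω ∧ ∀ j, y ∉ Metric.closedBall (x j) (r j) := by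
    intro y
    unfold Hl
    rw [Set.mem_sdiff, mem_iUnion, not_exists]
  have hshell : ∀ j, shell (x j) (r j) R ⊆ Hl Ω x r := by
    intro j y hy
    rw [hmem]
    have h1 : y ∈ Metric.closedBall (x j) R := Metric.mem_closedBall.2 hy.2.le
    refine ⟨hsub j h1, fun i hi => ?_⟩
    by_cases hij : i = j
    · subst hij
      exact absurd (Metric.mem_closedBall.1 hi) (not_le.2 hy.1)
    · have h2 : y ∈ Metric.closedBall (x i) R :=
        Metric.closedBall_subset_closedBall (hr i).2.le hi
      exact (Set.disjoint_left.1 (hdis i j hij) h2) h1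
  have hball : ∀ j y, y ∈ Hl Ω x r → y ∈ Metric.ball (x j) R → y ∈ shell (x j) (r j) R := by
    intro j y hy hb
    have h1 := ((hmem y).1 hy).2 j
    rw [Metric.mem_closedBall, not_le] at h1
    exact ⟨h1, Metric.mem_ball.1 hb⟩
  refine ⟨hopen, ?_, ?_⟩
  · obtain ⟨y, hy⟩ := hC.nonempty
    by_cases h : y ∈ Hl Ω x r
    · exact ⟨y, h⟩
    · rw [hmem, not_and] at h
      have h1 := h hy
      push Not at h1
      obtain ⟨j, _⟩ := h1
      exact (shell_ne hd (x j) (hr j).1 (hr j).2).mono (hshell j)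
  · rw [isPreconnected_iff_subset_of_disjoint]
    intro u v hu hv huv hdj
    have hnot : ∀ y, y ∈ Hl Ω x r → y ∈ u → y ∈ v → False := by
      intro y hy h1 h2
      have : y ∈ Hl Ω x r ∩ (u ∩ v) := ⟨hy, h1, h2⟩
      rw [hdj] at this
      exact this
    have hcase : ∀ j, shell (x j) (r j) R ⊆ u ∨ shell (x j) (r j) R ⊆ v := by
      intro j
      have hp := shell_pre hd (x j) (R := R) (hr j).1
      rw [isPreconnected_iff_subset_of_disjoint] at hp
      refine hp u v hu hv ((hshell j).trans huv) ?_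
      rw [Set.eq_empty_iff_forall_notMem]
      rintro y ⟨hy, h1, h2⟩
      exact hnot y (hshell j hy) h1 h2
    set W : Set (En d) := (u ∩ Hl Ω x r) ∪
      ⋃ j ∈ {j | shell (x j) (r j) R ⊆ u}, Metric.ball (x j) R with hW
    set W' : Set (En d) := (v ∩ Hl Ω x r) ∪
      ⋃ j ∈ {j | ¬ shell (x j) (r j) R ⊆ u}, Metric.ball (x j) R with hW'
    have hWm : ∀ y, y ∈ W ↔ (y ∈ u ∧ y ∈ Hl Ω x r) ∨
        ∃ j, shell (x j) (r j) R ⊆ u ∧ y ∈ Metric.ball (x j) R := by
      intro y
      rw [hW, mem_union, mem_inter_iff, mem_iUnion₂]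
      simp only [mem_ofPred_eq, exists_prop]
    have hWm' : ∀ y, y ∈ W' ↔ (y ∈ v ∧ y ∈ Hl Ω x r) ∨
        ∃ j, ¬ shell (x j) (r j) R ⊆ u ∧ y ∈ Metric.ball (x j) R := by
      intro y
      rw [hW', mem_union, mem_inter_iff, mem_iUnion₂]
      simp only [mem_ofPred_eq, exists_prop]
    have hWo : IsOpen W := (hu.inter hopen).union
      (isOpen_biUnion fun j _ => Metric.isOpen_ball)
    have hWo' : IsOpen W' := (hv.inter hopen).union
      (isOpen_biUnion fun j _ => Metric.isOpen_ball)
    have hpre := hC.isPreconnected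
    rw [isPreconnected_iff_subset_of_disjoint] at hpre
    have hcov : Ω ⊆ W ∪ W' := by
      intro y hy
      by_cases h : y ∈ Hl Ω x r
      · rcases huv h with h1 | h1
        · exact Or.inl ((hWm y).2 (Or.inl ⟨h1, h⟩))
        · exact Or.inr ((hWm' y).2 (Or.inl ⟨h1, h⟩))
      · rw [hmem, not_and] at h
        have h1 := h hy
        push Not at h1
        obtain ⟨j, hj⟩ := h1
        have h2 : y ∈ Metric.ball (x j) R :=
          Metric.closedBall_subset_ball (hr j).2 hj
        by_cases h3 : shell (x j) (r j) R ⊆ u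
        · exact Or.inl ((hWm y).2 (Or.inr ⟨j, h3, h2⟩))
        · exact Or.inr ((hWm' y).2 (Or.inr ⟨j, h3, h2⟩))
    have hemp : Ω ∩ (W ∩ W') = ∅ := by
      rw [Set.eq_empty_iff_forall_notMem]
      rintro y ⟨hy, h1, h2⟩
      rw [hWm] at h1
      rw [hWm'] at h2
      rcases h1 with ⟨h1, h1'⟩ | ⟨i, hi, hi'⟩
      · rcases h2 with ⟨h2, _⟩ | ⟨j, hj, hj'⟩
        · exact hnot y h1' h1 h2
        · have h3 : shell (x j) (r j) R ⊆ v := (hcase j).resolve_left hj
          exact hnot y h1' h1 (h3 (hball j y h1' hj'))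
      · rcases h2 with ⟨h2, h2'⟩ | ⟨j, hj, hj'⟩
        · exact hnot y h2' (hi (hball i y h2' hi')) h2
        · have hij : i ≠ j := by
            rintro rfl
            exact hj hi
          exact Set.disjoint_left.1 (hdis i j hij) (Metric.ball_subset_closedBall hi')
            (Metric.ball_subset_closedBall hj')
    rcases hpre W W' hWo hWo' hcov hemp with h | h
    · left
      intro y hy
      have h1 := h ((hmem y).1 hy).1
      rw [hWm] at h1
      rcases h1 with ⟨h1, _⟩ | ⟨i, hi, hi'⟩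
      · exact h1
      · exact hi (hball i y hy hi')
    · right
      intro y hy
      have h1 := h ((hmem y).1 hy).1
      rw [hWm'] at h1
      rcases h1 with ⟨h1, _⟩ | ⟨i, hi, hi'⟩
      · exact h1
      · exact ((hcase i).resolve_left hi) (hball i y hy hi')

end Pool.Agent.BEH.H40

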